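import Pool.Agent.MP_09973c_nt.H58.SpecA

/-!
Products of systems and extension of a system by a root of a polynomial.
-/

set_option autoImplicit false

namespace Pool.Agent.MP_09973c_nt.H9

open Polynomial Finset Filter Pool.Agent.MP_09973c_nt.H58

section InV

variable {P κ ι : Type} [Fintype κ] [DecidableEq κ] {S : Sys P κ ι}

theorem inV_congr {f g : P → ℂ} (h : S.InV f) (hfg : ∀ x, S.Ok x → g x = f x) : S.InV g := by
  obtain ⟨c, hc⟩ := h
  exact ⟨c, fun x hx => (hfg x hx).trans (hc x hx)⟩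

theorem inV_zero : S.InV fun _ => 0 := ⟨0, by simp⟩

theorem inV_add {f g : P → ℂ} (hf : S.InV f) (hg : S.InV g) : S.InV fun x => f x + g x := by
  obtain ⟨c, hc⟩ := hf
  obtain ⟨c', hc'⟩ := hg
  exact ⟨c + c', fun x hx => by simp [hc x hx, hc' x hx, add_mul, sum_add_distrib]⟩

theorem inV_smul (a : ℂ) {f : P → ℂ} (hf : S.InV f) : S.InV fun x => a * f x := by
  obtain ⟨c, hc⟩ := hf
  exact ⟨fun k => a * c k, fun x hx => by simp [hc x hx, mul_sum, mul_assoc]⟩

theorem inV_sum {τ : Type} (T : Finset τ) {f : τ → P → ℂ} (h : ∀ t ∈ T, S.InV (f t)) :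
    S.InV fun x => ∑ t ∈ T, f t x := by
  classical
  induction T using Finset.induction_on with
  | empty => simpa using inV_zero
  | insert a T ha ih =>
    simp only [sum_insert ha]
    exact inV_add (h a (by simp)) (ih fun t ht => h t (by simp [ht]))

end InV

/-- Polynomial functions of bidegree at most `(a, b)`. -/
def W (a b : ℕ) : Submodule ℂ (ℂ × ℂ → ℂ) :=
  Submodule.span ℂ {f | ∃ i ≤ a, ∃ j ≤ b, f = fun y => y.1 ^ i * y.2 ^ j}

theorem W_mon {a b i j : ℕ} (hi : i ≤ a) (hj : j ≤ b) :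
    (fun y : ℂ × ℂ => y.1 ^ i * y.2 ^ j) ∈ W a b := Submodule.subset_span ⟨i, hi, j, hj, rfl⟩

theorem W_mono {a b a' b' : ℕ} (ha : a ≤ a') (hb : b ≤ b') : W a b ≤ W a' b' :=
  Submodule.span_mono fun _ ⟨i, hi, j, hj, h⟩ => ⟨i, hi.trans ha, j, hj.trans hb, h⟩

theorem W_mul {a b a' b' : ℕ} {f g : ℂ × ℂ → ℂ} (hf : f ∈ W a b) (hg : g ∈ W a' b') :
    f * g ∈ W (a + a') (b + b') := by
  have := Submodule.mul_mem_mul hf hg
  rw [W, W, Submodule.span_mul_span] at this
  refine Submodule.span_mono ?_ this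
  rintro _ ⟨_, ⟨i, hi, j, hj, rfl⟩, _, ⟨i', hi', j', hj', rfl⟩, rfl⟩
  exact ⟨i + i', by omega, j + j', by omega, by funext y; simp only [Pi.mul_apply]; ring⟩

theorem W_pow {a b : ℕ} {f : ℂ × ℂ → ℂ} (hf : f ∈ W a b) (n : ℕ) :
    f ^ n ∈ W (n * a) (n * b) := by
  induction n with
  | zero => convert W_mon (i := 0) (j := 0) (Nat.zero_le _) (Nat.zero_le _) using 1; funext y; simp
  | succ n ih => rw [pow_succ, add_mul, add_mul, one_mul, one_mul]; exact W_mul ih hf

theorem W_lin {a b : ℕ} {φ : Fin 3 → ℂ × ℂ → ℂ} (h : ∀ i, φ i ∈ W a b) (l : Fin 3 → ℂ) :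
    (fun y => ∑ i, l i * φ i y) ∈ W a b := by
  convert (W a b).sum_mem (t := univ) fun i _ => (W a b).smul_mem (l i) (h i) using 1
  funext y; simp

theorem W_forms {a b : ℕ} {φ : Fin 3 → ℂ × ℂ → ℂ} (h : ∀ i, φ i ∈ W a b) (l l' : Fin 3 → ℂ)
    (J : ℕ) : (fun y => ((∑ i, l i * φ i y) * ∑ i, l' i * φ i y) ^ J) ∈
      W (J * (a + a)) (J * (b + b)) := W_pow (W_mul (W_lin h l) (W_lin h l')) J

theorem W_ind {P κ ι : Type} [Fintype κ] [DecidableEq κ] (T : Sys P κ ι) (u : P → ℂ × ℂ)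
    (h : P → ℂ) {a b : ℕ}
    (hb : ∀ i ≤ a, ∀ j ≤ b, T.InV fun x => (u x).1 ^ i * (u x).2 ^ j * h x)
    {f : ℂ × ℂ → ℂ} (hf : f ∈ W a b) : T.InV fun x => f (u x) * h x := by
  induction hf using Submodule.span_induction with
  | mem f hf => obtain ⟨i, hi, j, hj, rfl⟩ := hf; exact hb i hi j hj
  | zero => simpa using inV_zero
  | add f g _ _ hf hg => simpa [add_mul] using inV_add hf hg
  | smul c f _ hf => simpa [mul_assoc] using inV_smul c hf

theorem W_bdd {a b : ℕ} {f : ℂ × ℂ → ℂ} (hf : f ∈ W a b) (R : ℝ) :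
    ∃ M : ℝ, 1 ≤ M ∧ ∀ z w : ℂ, ‖z‖ ≤ R → ‖w‖ ≤ R → ‖f (z, w)‖ ≤ M := by
  have hc : Continuous f := by
    induction hf using Submodule.span_induction with
    | mem f hf => obtain ⟨i, -, j, -, rfl⟩ := hf; fun_prop
    | zero => exact continuous_zero
    | add f g _ _ hf hg => exact hf.add hg
    | smul c f _ hf => exact hf.const_smul c
  obtain ⟨M, hM⟩ := ((isCompact_closedBall (0 : ℂ) R).prod
    (isCompact_closedBall (0 : ℂ) R)).exists_bound_of_continuousOn hc.continuousOn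
  exact ⟨max 1 M, le_max_left _ _, fun z w hz hw =>
    (hM (z, w) ⟨by simpa using hz, by simpa using hw⟩).trans (le_max_right _ _)⟩

theorem ev2_eq (f : ℂ[X][X]) (z θ : ℂ) :
    ev2 (RingHom.id ℂ) f z θ = (f.map (evalRingHom z)).eval θ := by
  rw [eval_map, ev2]
  congr 1

theorem eval_mem (c : ℂ[X]) : ∃ a, (fun y : ℂ × ℂ => c.eval y.1) ∈ W a 0 := by
  induction c using Polynomial.induction_on' with
  | add p q hp hq =>
    obtain ⟨a, ha⟩ := hp
    obtain ⟨b, hb⟩ := hq
    refine ⟨max a b, ?_⟩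
    convert (W _ 0).add_mem (W_mono (le_max_left a b) le_rfl ha)
      (W_mono (le_max_right a b) le_rfl hb) using 1
    funext y; simp
  | monomial n c =>
    refine ⟨n, ?_⟩
    convert (W n 0).smul_mem c (W_mon (le_refl n) (le_refl 0)) using 1
    funext y; simp

theorem ev2_mem (F : ℂ[X][X]) : ∃ a, (fun y : ℂ × ℂ => ev2 (RingHom.id ℂ) F y.1 y.2) ∈ W a a := by
  simp only [ev2_eq]
  induction F using Polynomial.induction_on' with
  | add p q hp hq =>
    obtain ⟨a, ha⟩ := hp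
    obtain ⟨b, hb⟩ := hq
    refine ⟨max a b, ?_⟩
    convert (W _ _).add_mem (W_mono (le_max_left a b) (le_max_left a b) ha)
      (W_mono (le_max_right a b) (le_max_right a b) hb) using 1
    funext y; simp
  | monomial n c =>
    obtain ⟨a, ha⟩ := eval_mem c
    refine ⟨a + n, ?_⟩
    convert W_mono (a' := a + n) (b' := a + n) (by omega) (by omega)
      (W_mul ha (W_mon (le_refl 0) (le_refl n))) using 1
    funext y; simp

theorem prod : ProdStmt := by
  intro P κ ι P' κ' ι' _ _ _ _ S S'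
  obtain ⟨L, hL, hL'⟩ := S.lag
  obtain ⟨M, hM, hM'⟩ := S'.lag
  have hs : ∀ (c : κ → ℂ) (c' : κ' → ℂ) (x : P × P'),
      ∑ k : κ × κ', c k.1 * c' k.2 * (S.e k.1 x.1 * S'.e k.2 x.2) =
        (∑ k, c k * S.e k x.1) * ∑ k, c' k * S'.e k x.2 := by
    intro c c' x
    rw [Fintype.sum_prod_type, sum_mul_sum]
    exact sum_congr rfl fun _ _ => sum_congr rfl fun _ _ => by ring
  have hB := S.hB
  have hB' := S'.hB
  let T : Sys (P × P') (κ × κ') (ι × ι') :=
    { Ok := fun x => S.Ok x.1 ∧ S'.Ok x.2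
      e := fun k x => S.e k.1 x.1 * S'.e k.2 x.2
      lo := S.lo.prodMap S'.lo
      R := fun k => (S.R k.1, S'.R k.2)
      B := S.B * S'.B
      hB := one_le_mul_of_one_le_of_one_le hB hB'
      okR := fun r => ⟨S.okR _, S'.okR _⟩
      be := fun k x hx => by
        rw [norm_mul]
        exact mul_le_mul (S.be _ _ hx.1) (S'.be _ _ hx.2) (norm_nonneg _) (by linarith)
      lag := ⟨fun r k => L r.1 k.1 * M r.2 k.2, fun r r' => by
        rw [hs, hL, hM]
        by_cases h1 : r.1 = r'.1 <;> by_cases h2 : r.2 = r'.2 <;> simp [h1, h2, Prod.ext_iff],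
        fun r x hx => by
        rw [hs, norm_mul]
        exact mul_le_mul (hL' _ _ hx.1) (hM' _ _ hx.2) (norm_nonneg _) (by linarith)⟩ }
  refine ⟨T, fun _ => Iff.rfl, fun _ _ => rfl, fun _ => rfl, rfl, ?_⟩
  intro z z' n hz hz' J l l' hJ k₀
  have hφ : ∀ i : Fin 3, (fun y : ℂ × ℂ => ![1, y.1, y.2] i) ∈ W 1 1 := by
    intro i
    fin_cases i
    · convert W_mon (i := 0) (j := 0) zero_le_one zero_le_one using 1; funext y; simp
    · convert W_mon (i := 1) (j := 0) le_rfl zero_le_one using 1; funext y; simp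
    · convert W_mon (i := 0) (j := 1) zero_le_one le_rfl using 1; funext y; simp
  refine W_ind T (fun x => (z x.1, z' x.2)) _ (fun i hi j hj => ?_) (W_forms hφ l l' J)
  obtain ⟨c, hc⟩ := hz i (by omega) k₀.1
  obtain ⟨c', hc'⟩ := hz' j (by omega) k₀.2
  refine ⟨fun k => c k.1 * c' k.2, fun x hx => ?_⟩
  refine Eq.trans ?_ (hs c c' x).symm
  rw [← hc _ hx.1, ← hc' _ hx.2]
  show _ * (S.e (S.lo k₀.1) x.1 * S'.e (S'.lo k₀.2) x.2) = _
  ring

theorem reduce {P κ ι : Type} [Fintype κ] [DecidableEq κ] (T : Sys P κ ι) (u : P → ℂ × ℂ)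
    (h : P → ℂ) {f : ℂ[X][X]} (hf : f.Monic) {D : ℕ} (hD : ∀ k, (f.coeff k).natDegree ≤ D)
    (hu : ∀ x, T.Ok x → ev2 (RingHom.id ℂ) f (u x).1 (u x).2 = 0) {N : ℕ}
    (hb : ∀ i ≤ N, ∀ j < f.natDegree, T.InV fun x => (u x).1 ^ i * (u x).2 ^ j * h x) (j : ℕ) :
    ∀ i, i + j * D ≤ N → T.InV fun x => (u x).1 ^ i * (u x).2 ^ j * h x := by
  induction j using Nat.strong_induction_on with
  | _ j ih =>
  intro i hi
  by_cases hj : j < f.natDegree
  · exact hb i (by omega) j hj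
  obtain ⟨m, rfl⟩ := Nat.exists_eq_add_of_le (not_lt.1 hj)
  refine inV_congr (inV_sum (range f.natDegree) fun k hk => inV_sum (range (D + 1)) fun e he =>
    inV_smul (-(f.coeff k).coeff e) (ih (k + m) (by simpa using hk) (i + e) ?_)) fun x hx => ?_
  · have h1 : (k + m + 1) * D ≤ (f.natDegree + m) * D :=
      Nat.mul_le_mul_right _ (by have := mem_range.1 hk; omega)
    have h2 := mem_range.1 he
    rw [add_mul _ 1, one_mul] at h1
    omega
  · have h1 := hu x hx
    rw [ev2, eval₂_eq_sum_range, sum_range_succ, hf.coeff_natDegree, map_one, one_mul] at h1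
    have h2 : (u x).2 ^ f.natDegree = -∑ k ∈ range f.natDegree,
        (∑ e ∈ range (D + 1), (f.coeff k).coeff e * (u x).1 ^ e) * (u x).2 ^ k := by
      rw [eq_neg_iff_add_eq_zero, add_comm, ← h1]
      congr 1
      refine sum_congr rfl fun k _ => ?_
      rw [← eval_eq_sum_range' (Nat.lt_succ_of_le (hD k))]
      rfl
    rw [pow_add, h2]
    simp only [neg_mul, mul_neg, sum_mul, mul_sum, sum_neg_distrib]
    congr 1
    exact sum_congr rfl fun _ _ => sum_congr rfl fun _ _ => by ring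

theorem eval_lower {r : ℂ[X]} {z : ℂ} {η : ℝ} (hη : 0 ≤ η)
    (h : ∀ β ∈ r.roots.toFinset, η ≤ ‖z - β‖) :
    ‖r.leadingCoeff‖ * η ^ r.natDegree ≤ ‖r.eval z‖ := by
  have hs := IsAlgClosed.splits r
  conv_rhs => rw [hs.eq_prod_roots]
  rw [eval_mul, eval_C, norm_mul, hs.natDegree_eq_card_roots]
  refine mul_le_mul_of_nonneg_left ?_ (norm_nonneg _)
  have : ∀ s : Multiset ℂ, (∀ β ∈ s, η ≤ ‖z - β‖) →
      η ^ s.card ≤ ‖eval z (s.map fun a => X - C a).prod‖ := by
    intro s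
    induction s using Multiset.induction_on with
    | empty => simp
    | cons a s ih =>
      intro hs
      rw [Multiset.map_cons, Multiset.prod_cons, eval_mul, norm_mul, Multiset.card_cons, pow_succ']
      exact mul_le_mul (by simpa using hs a (by simp)) (ih fun β hβ => hs β (by simp [hβ]))
        (by positivity) (norm_nonneg _)
  exact this _ fun β hβ => h β (Multiset.mem_toFinset.2 hβ)

theorem roots_bdd {f : ℂ[X][X]} (hf : f.Monic) (C₀ : ℝ) : ∃ ρ : ℝ, 1 ≤ ρ ∧ C₀ ≤ ρ ∧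
    ∀ z θ : ℂ, ‖z‖ ≤ C₀ → ev2 (RingHom.id ℂ) f z θ = 0 → ‖θ‖ ≤ ρ := by
  have h1 : ∀ k, ∃ M : ℝ, 1 ≤ M ∧ ∀ z : ℂ, ‖z‖ ≤ C₀ → ‖(f.coeff k).eval z‖ ≤ M := by
    intro k
    obtain ⟨a, ha⟩ := eval_mem (f.coeff k)
    obtain ⟨M, hM, h⟩ := W_bdd ha C₀
    exact ⟨M, hM, fun z hz => h z z hz hz⟩
  choose M hM h using h1
  have h0 : 0 ≤ ∑ k ∈ range (f.natDegree + 1), M k := sum_nonneg fun k _ => by linarith [hM k]
  refine ⟨max C₀ (∑ k ∈ range (f.natDegree + 1), M k + 1), le_max_of_le_right (by linarith),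
    le_max_left _ _, fun z θ hz hθ => le_max_of_le_right ?_⟩
  rw [ev2_eq] at hθ
  refine H31.norm_root_le _ (hf.map _) _ (fun i => ?_) _ hθ
  rw [coeff_map]
  by_cases hi : i ≤ f.natDegree
  · exact (h i z hz).trans (single_le_sum (f := M) (fun k _ => by linarith [hM k])
      (mem_range.2 (by omega)))
  · rw [coeff_eq_zero_of_natDegree_lt (by omega), map_zero, norm_zero]
    exact h0

theorem comp : CompStmt := by
  rintro f ψ C₀ hf ⟨A, B, r, hr, hAB⟩
  obtain ⟨ρ, hρ, hρC, hroot⟩ := roots_bdd hf C₀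
  obtain ⟨aB, haB⟩ := ev2_mem B
  obtain ⟨M, hM, hMB⟩ := W_bdd haB ρ
  choose aψ haψ using fun i => ev2_mem (ψ i)
  have hψ : ∀ i, (fun y : ℂ × ℂ => ev2 (RingHom.id ℂ) (ψ i) y.1 y.2) ∈
      W (∑ i, aψ i) (∑ i, aψ i) := fun i =>
    have := single_le_sum (f := aψ) (fun _ _ => Nat.zero_le _) (mem_univ i)
    W_mono this this (haψ i)
  obtain ⟨D, hD⟩ : ∃ D, ∀ k, (f.coeff k).natDegree ≤ D := by
    refine ⟨∑ k ∈ range (f.natDegree + 1), (f.coeff k).natDegree, fun i => ?_⟩
    by_cases hi : i ≤ f.natDegree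
    · exact single_le_sum (f := fun k => (f.coeff k).natDegree) (fun _ _ => Nat.zero_le _)
        (mem_range.2 (by omega))
    · rw [coeff_eq_zero_of_natDegree_lt (by omega)]; simp
  generalize ∑ i, aψ i = a at hψ
  have hlc : 0 < ‖r.leadingCoeff‖ := norm_pos_iff.2 (leadingCoeff_ne_zero.2 hr)
  have hρ2 : 1 ≤ (2 * ρ) ^ f.natDegree := one_le_pow₀ (by linarith)
  obtain ⟨K, hK1, hK⟩ : ∃ K : ℝ, 1 ≤ K ∧ M / ‖r.leadingCoeff‖ ≤ K :=
    ⟨max 1 _, le_max_left _ _, le_max_right _ _⟩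
  refine ⟨r.roots.toFinset, (a + a) * (1 + D) + f.natDegree * D, r.natDegree,
    (2 * ρ) ^ f.natDegree * K, one_le_mul_of_one_le_of_one_le hρ2 hK1, ?_⟩
  intro P κ ι _ _ S z η rt hη hη1 hz hbad hrt
  obtain ⟨L, hL, hL'⟩ := S.lag
  have hB := S.hB
  have hηE : η ^ r.natDegree ≤ 1 := pow_le_one₀ hη.le hη1
  have hηp : 0 < η ^ r.natDegree := by positivity
  have hC : (2 * ρ) ^ f.natDegree ≤ (2 * ρ) ^ f.natDegree * K / η ^ r.natDegree := by
    rw [le_div_iff₀ hηp]
    exact mul_le_mul_of_nonneg_left (hηE.trans hK1) (by linarith)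
  have hz0 : ∀ k j, ev2 (RingHom.id ℂ) f (z (S.R k)) (rt k j) = 0 := fun k j => by
    rw [ev2_eq, hrt, eval_prod]
    exact prod_eq_zero (mem_univ j) (by simp)
  have hder : ∀ k j, η ^ r.natDegree ≤ K * ‖∏ j' ∈ univ.erase j, (rt k j - rt k j')‖ := by
    intro k j
    have h1 := congrArg (fun g => (g.map (evalRingHom (z (S.R k)))).eval (rt k j)) hAB
    have h2 := hz0 k j
    rw [ev2_eq] at h2
    simp only [Polynomial.map_add, Polynomial.map_mul, eval_add, eval_mul, h2, mul_zero, zero_add,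
      map_C, eval_C, coe_evalRingHom] at h1
    rw [← derivative_map, hrt, ← Lagrange.nodal_eq,
      Lagrange.eval_nodal_derivative_eval_node_eq (mem_univ j), Lagrange.eval_nodal,
      ← ev2_eq] at h1
    have h3 := eval_lower hη.le (hbad k)
    rw [← h1, norm_mul] at h3
    have h4 := hMB _ _ ((hz _ (S.okR k)).trans hρC) (hroot _ _ (hz _ (S.okR k)) (hz0 k j))
    rw [div_le_iff₀ hlc] at hK
    refine le_of_mul_le_mul_left (h3.trans ?_) hlc
    rw [← mul_assoc]
    exact mul_le_mul_of_nonneg_right (h4.trans (by linarith)) (norm_nonneg _)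
  have hinj : ∀ k, Set.InjOn (rt k) (univ : Finset (Fin f.natDegree)) := by
    intro k j _ j' _ hjj
    by_contra hne
    have h1 := hder k j
    rw [prod_eq_zero (mem_erase.2 ⟨Ne.symm hne, mem_univ j'⟩) (sub_eq_zero.2 hjj)] at h1
    simp only [norm_zero, mul_zero] at h1
    linarith
  have hs : ∀ (k : κ × Fin f.natDegree) (x : P × ℂ), ∑ k' : κ × Fin f.natDegree,
      L k.1 k'.1 * (Lagrange.basis univ (rt k.1) k.2).coeff k'.2 * (S.e k'.1 x.1 * x.2 ^ (k'.2 : ℕ))
        = (∑ k', L k.1 k' * S.e k' x.1) * (Lagrange.basis univ (rt k.1) k.2).eval x.2 := by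
    intro k x
    have h1 : (Lagrange.basis univ (rt k.1) k.2).natDegree < f.natDegree := by
      rw [Lagrange.natDegree_basis (hinj _) (mem_univ _)]
      have := k.2.pos
      simp only [card_univ, Fintype.card_fin]
      omega
    rw [eval_eq_sum_range' h1, Finset.sum_range, Fintype.sum_prod_type, sum_mul_sum]
    exact sum_congr rfl fun _ _ => sum_congr rfl fun _ _ => by ring
  let T : Sys (P × ℂ) (κ × Fin f.natDegree) (ι × Fin f.natDegree) :=
    { Ok := fun x => S.Ok x.1 ∧ ev2 (RingHom.id ℂ) f (z x.1) x.2 = 0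
      e := fun k x => S.e k.1 x.1 * x.2 ^ (k.2 : ℕ)
      lo := S.lo.prodMap (Function.Embedding.refl _)
      R := fun k => (S.R k.1, rt k.1 k.2)
      B := S.B * ((2 * ρ) ^ f.natDegree * K / η ^ r.natDegree)
      hB := one_le_mul_of_one_le_of_one_le hB (hρ2.trans hC)
      okR := fun k => ⟨S.okR _, hz0 _ _⟩
      be := fun k x hx => by
        rw [norm_mul, norm_pow]
        refine mul_le_mul (S.be _ _ hx.1) (le_trans ?_ hC) (by positivity) (by linarith)
        exact (pow_le_pow_left₀ (norm_nonneg _) ((hroot _ _ (hz _ hx.1) hx.2).trans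
          (by linarith)) _).trans (pow_le_pow_right₀ (by linarith) k.2.2.le)
      lag := ⟨fun k k' => L k.1 k'.1 * (Lagrange.basis univ (rt k.1) k.2).coeff k'.2,
        fun k k' => by
          rw [hs, hL]
          obtain ⟨k, j⟩ := k
          obtain ⟨k', j'⟩ := k'
          by_cases h1 : k = k'
          · subst h1
            by_cases h2 : j = j'
            · subst h2
              simp [Lagrange.eval_basis_self (hinj k) (mem_univ j)]
            · simp [h2, Lagrange.eval_basis_of_ne h2 (mem_univ j')]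
          · simp [h1],
        fun k x hx => by
          rw [hs, norm_mul]
          refine mul_le_mul (hL' _ _ hx.1) ?_ (norm_nonneg _) (by linarith)
          have h1 : (Lagrange.basis univ (rt k.1) k.2).eval x.2 =
              (∏ j' ∈ univ.erase k.2, (x.2 - rt k.1 j')) /
                ∏ j' ∈ univ.erase k.2, (rt k.1 k.2 - rt k.1 j') := by
            rw [Lagrange.basis, eval_prod, ← prod_div_distrib]
            refine prod_congr rfl fun j' _ => ?_
            simp [Lagrange.basisDivisor, div_eq_inv_mul]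
          have h2 : ‖∏ j' ∈ univ.erase k.2, (x.2 - rt k.1 j')‖ ≤ (2 * ρ) ^ f.natDegree := by
            rw [norm_prod]
            refine (prod_le_prod (g := fun _ => 2 * ρ) (fun _ _ => norm_nonneg _)
              fun j' _ => ?_).trans ?_
            · have e1 := hroot _ _ (hz _ hx.1) hx.2
              have e2 := hroot _ _ (hz _ (S.okR k.1)) (hz0 k.1 j')
              exact (norm_sub_le _ _).trans (by linarith)
            · rw [prod_const]
              refine pow_le_pow_right₀ (by linarith) ((card_le_univ _).trans (by simp))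
          have h3 := hder k.1 k.2
          have h4 : 0 < ‖∏ j' ∈ univ.erase k.2, (rt k.1 k.2 - rt k.1 j')‖ := by
            refine lt_of_le_of_ne (norm_nonneg _) fun h => ?_
            rw [← h, mul_zero] at h3
            linarith
          rw [h1, norm_div, div_le_div_iff₀ h4 hηp, mul_assoc]
          exact mul_le_mul h2 h3 hηp.le (by linarith)⟩ }
  refine ⟨T, fun _ => Iff.rfl, fun _ _ => rfl, fun _ => rfl, rfl, ?_⟩
  intro n J hn hJ l l' k₀
  have h1 := W_mul (W_forms hψ l l' J) (W_mon (le_refl 0) k₀.2.2.le)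
  refine inV_congr (W_ind T (fun x => (z x.1, x.2)) (fun x => S.e (S.lo k₀.1) x.1)
    (fun i hi j hj => ?_) h1) fun x _ => ?_
  · refine reduce T (fun x => (z x.1, x.2)) _ hf hD (fun x hx => hx.2) (N := n)
      (fun i hi j hj => ?_) j i ?_
    · obtain ⟨c, hc⟩ := hn i hi k₀.1
      refine ⟨fun k => if k.2 = ⟨j, hj⟩ then c k.1 else 0, fun x hx => ?_⟩
      rw [Fintype.sum_prod_type]
      simp only [ite_mul, zero_mul, sum_ite_eq', mem_univ, if_true]
      have e1 : z x.1 ^ i * S.e (S.lo k₀.1) x.1 = _ := hc _ hx.1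
      rw [mul_right_comm, e1, sum_mul]
      exact sum_congr rfl fun _ _ => mul_assoc _ _ _
    · have h2 := Nat.mul_le_mul_right D hj
      nlinarith [Nat.zero_le (J * (f.natDegree * D)), Nat.zero_le ((a + a) * (1 + D))]
  · show _ * (S.e (S.lo k₀.1) x.1 * x.2 ^ (k₀.2 : ℕ)) = _
    simp only [Pi.mul_apply]
    ring

end Pool.Agent.MP_09973c_nt.H9
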