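import Pool.Agent.MP_09973c_nt.H58.SpecA

/-!
Selection of conjugates with nonzero determinant along an ultrafilter.
-/

set_option autoImplicit false

namespace Pool.Agent.MP_09973c_nt.H9

open Polynomial Finset Filter Pool.Agent.MP_09973c_nt.H58

theorem sz_scale {x : Qb} {d : ℕ} {H : ℝ} (h : Sz x d H) : Sz ((d : Qb) * x) 1 (d * H) := by
  refine ⟨by simpa using h.1, fun g => ?_⟩
  rw [map_mul, map_natCast, norm_mul, norm_natCast_Qb]
  exact mul_le_mul_of_nonneg_left (h.2 g) (Nat.cast_nonneg _)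

/-- A nonzero minor of order `r`. -/
def Minor {κ : Type} (G : Subgroup Gal) (E : κ → Qb) (r : ℕ) : Prop :=
  ∃ (f : Fin r → κ) (g : Fin r → Gal), Function.Injective f ∧ (∀ l, g l ∈ G) ∧
    (Matrix.of fun k l => g l (E (f k))).det ≠ 0

/-- The finite set of possible coefficients. -/
def Co (G : Subgroup Gal) (H : ℝ) : Set Qb :=
  {c : Qb | (∃ S : Subgroup Gal, S.index ≠ 0 ∧ S.index ≤ G.index ∧
    ∀ g ∈ S, g c = c) ∧ ∃ B : Qb, B ≠ 0 ∧ Sz B 1 H ∧ Sz (c * B) 1 H}

theorem rel_of_max {κ : Type} [Fintype κ] [DecidableEq κ] {G : Subgroup Gal} (hG : G.index ≠ 0)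
    {d : ℕ} (hd : 0 < d) {H : ℝ} {E : κ → Qb} (hE : ∀ k, Sz (E k) d H) {r : ℕ}
    (hr : r < Fintype.card κ) (h1 : Minor G E r) (h2 : ¬ Minor G E (r + 1)) :
    ∃ c : κ → Qb, (∀ k, c k ∈ insert 0 (Co G (((d ^ r : ℕ) : ℝ) * (r.factorial * H ^ r)))) ∧
      c ≠ 0 ∧ ∑ k, c k * E k = 0 := by
  obtain ⟨f, g, hf, hg, hdet⟩ := h1
  obtain ⟨k₀, hk₀⟩ : ∃ k₀, k₀ ∉ Set.range f := by
    by_contra hc
    push Not at hc
    have := Fintype.card_le_of_surjective f hc
    simp at this
    omega
  let f' : Fin (r + 1) → κ := Fin.cons k₀ f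
  have hf' : Function.Injective f' := Fin.cons_injective_iff.2 ⟨hk₀, hf⟩
  let m : Fin (r + 1) → Qb := fun i =>
    (-1) ^ (i : ℕ) * (Matrix.of fun k l => g l (E (f' (i.succAbove k)))).det
  have hm0 : m 0 = (Matrix.of fun k l => g l (E (f k))).det := by simp [m, f']
  have hm : ∀ h ∈ G, ∑ i, m i * h (E (f' i)) = 0 := by
    intro h hh
    by_contra hne
    refine h2 ⟨f', Fin.cons h g, hf', fun l => Fin.cases hh hg l, ?_⟩
    rw [Matrix.det_succ_column_zero]
    refine fun h0 => hne (Eq.trans (sum_congr rfl fun i _ => ?_) h0)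
    simp only [m, Matrix.of_apply, Fin.cons_zero]
    rw [mul_right_comm]
    rfl
  have hB : m 0 ≠ 0 := hm0 ▸ hdet
  let a : Fin (r + 1) → Qb := fun i => m i / m 0
  have ha0 : a 0 = 1 := div_self hB
  have ha : ∀ h ∈ G, ∑ i, a i * h (E (f' i)) = 0 := by
    intro h hh
    have := hm h hh
    simp only [a, div_mul_eq_mul_div, ← sum_div, this, zero_div]
  have hfix : ∀ h ∈ G, ∀ i, h (a i) = a i := by
    intro h hh
    have h3 : Matrix.vecMul (fun i : Fin r => h (a i.succ) - a i.succ)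
        (Matrix.of fun k l => g l (E (f k))) = 0 := by
      funext l
      have e1 := congrArg h (ha (h⁻¹ * g l) (G.mul_mem (G.inv_mem hh) (hg l)))
      have e2 := ha (g l) (hg l)
      rw [map_sum, map_zero] at e1
      simp only [map_mul, ← AlgEquiv.mul_apply, mul_inv_cancel_left] at e1
      rw [Fin.sum_univ_succ, ha0] at e1 e2
      simp only [Matrix.vecMul, dotProduct, Matrix.of_apply, sub_mul, sum_sub_distrib, Pi.zero_apply]
      simp only [f', Fin.cons_succ, map_one] at e1 e2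
      linear_combination e1 - e2
    have h4 := Matrix.eq_zero_of_vecMul_eq_zero hdet h3
    intro i
    refine Fin.cases (by rw [ha0, map_one]) (fun i => ?_) i
    exact sub_eq_zero.1 (congrFun h4 i)
  have hsz : ∀ i, Sz (((d ^ r : ℕ) : Qb) * m i) 1 (((d ^ r : ℕ) : ℝ) * (r.factorial * H ^ r)) := by
    intro i
    refine sz_scale ?_
    have h5 := Sz.det (M := Matrix.of fun k l => g l (E (f' (i.succAbove k))))
      fun k l => (hE _).map _
    simp only [Fintype.card_fin] at h5
    rcases neg_one_pow_eq_or Qb i with h6 | h6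
    · simpa only [m, h6, one_mul] using h5
    · simpa only [m, h6, neg_one_mul] using h5.neg
  refine ⟨Function.extend f' a 0, fun k => ?_, fun h0 => ?_, ?_⟩
  · by_cases hk : ∃ i, f' i = k
    · obtain ⟨i, rfl⟩ := hk
      rw [hf'.extend_apply]
      refine Or.inr ⟨⟨G, hG, le_rfl, fun h hh => hfix h hh i⟩, _,
        mul_ne_zero (by exact_mod_cast (pow_pos hd r).ne') hB, hsz 0, ?_⟩
      have : a i * (((d ^ r : ℕ) : Qb) * m 0) = ((d ^ r : ℕ) : Qb) * m i := by
        simp only [a]; field_simp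
      rw [this]
      exact hsz i
    · rw [Function.extend_apply' _ _ _ hk]
      exact Or.inl rfl
  · have := congrFun h0 (f' 0)
    rw [hf'.extend_apply, ha0] at this
    exact one_ne_zero this
  · have h7 := ha 1 G.one_mem
    rw [← h7]
    symm
    refine Fintype.sum_of_injective f' hf' _ _ (fun k hk => ?_) fun i => ?_
    · rw [Function.extend_apply' _ _ _ hk]; simp
    · rw [hf'.extend_apply]; rfl

theorem selG : SelGStmt := by
  intro κ _ _ G d H U E hG hd hE hind
  by_contra hc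
  rw [← Ultrafilter.eventually_not] at hc
  let F : Set (κ → Qb) := ⋃ r ∈ {r | r < Fintype.card κ},
    {c | ∀ k, c k ∈ insert 0 (Co G (((d ^ r : ℕ) : ℝ) * (r.factorial * H ^ r)))}
  have hF : F.Finite := (Set.finite_lt_nat _).biUnion fun r _ =>
    Set.Finite.pi' fun _ => (northQ _ _).insert 0
  have h1 : ∀ᶠ ν in (U : Filter ℕ), ∃ c ∈ F, c ≠ 0 ∧ ∑ k, c k * E ν k = 0 := by
    filter_upwards [hE, hc] with ν h1 h2
    have h0 : Minor G (E ν) 0 := ⟨Fin.elim0, Fin.elim0, fun i => i.elim0, fun i => i.elim0, by simp⟩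
    have hN : ¬ Minor G (E ν) (Fintype.card κ) := by
      rintro ⟨f, g, hf, hg, hdet⟩
      let e := Equiv.ofBijective f ((Fintype.bijective_iff_injective_and_card f).2 ⟨hf, by simp⟩)
      refine h2 ⟨fun l => g (e.symm l), fun l => hg _, ?_⟩
      rw [← Matrix.det_submatrix_equiv_self e]
      convert hdet using 2
      ext k l
      simp [e]
    obtain ⟨r, hr, h3, h4⟩ : ∃ r < Fintype.card κ, Minor G (E ν) r ∧ ¬ Minor G (E ν) (r + 1) := by
      by_contra hcon
      push Not at hcon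
      have : ∀ r ≤ Fintype.card κ, Minor G (E ν) r := by
        intro r hr
        induction r with
        | zero => exact h0
        | succ r ih => exact hcon r hr (ih (by omega))
      exact hN (this _ le_rfl)
    obtain ⟨c, hc1, hc2, hc3⟩ := rel_of_max hG hd h1 hr h3 h4
    exact ⟨c, Set.mem_biUnion (s := {r | r < Fintype.card κ}) hr hc1, hc2, hc3⟩
  obtain ⟨c, -, h2⟩ := (Ultrafilter.eventually_exists_mem_iff hF).1 h1
  obtain ⟨ν, h3, -⟩ := h2.exists
  obtain ⟨ν, h4, h5⟩ := (h2.and (hind c h3)).exists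
  exact h5 h4.2

end Pool.Agent.MP_09973c_nt.H9
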